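import Pool.Agent.Helper35.PI2.St

set_option autoImplicit false

namespace Helper47.PI2

open Helper35.PI Helper35.PI2
open scoped ContDiff Manifold Topology ENNReal BigOperators
open MeasureTheory Set Filter

lemma pow_id (n : ℕ) {R : ℝ} (hR : 0 < R) :
    (4 * Real.pi * R ^ 2) ^ ((n : ℝ) / 2) = (4 * Real.pi) ^ ((n : ℝ) / 2) * R ^ n := by
  rw [Real.mul_rpow (by positivity) (by positivity)]
  congr 1
  rw [← Real.rpow_natCast R 2, ← Real.rpow_mul hR.le]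
  have h : ((2 : ℕ) : ℝ) * ((n : ℝ) / 2) = (n : ℝ) := by push_cast; ring
  rw [h, Real.rpow_natCast]

theorem hAG (hV8 : StV8) : StAG := by
  intro n N M _ _ _ _ F hF hcomp hent
  obtain ⟨C8, hC8, h8⟩ := hV8 n
  obtain ⟨C, hC, hE⟩ := hent
  set D : ℝ≥0∞ := C8 * (C * ENNReal.ofReal ((4 * Real.pi) ^ ((n : ℝ) / 2)) *
    ENNReal.ofReal (Real.exp (1 / 4))) with hD
  have hDt : D ≠ ⊤ := by
    rw [hD]
    exact ENNReal.mul_ne_top hC8 (ENNReal.mul_ne_top (ENNReal.mul_ne_top hC ENNReal.ofReal_ne_top)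
      ENNReal.ofReal_ne_top)
  refine ⟨D.toReal + 1, by positivity, ?_⟩
  intro c χ hPU t R ht hR
  refine (h8 N M F hF t R ht (hcomp t R ht) c χ hPU).trans ?_
  have h := hE t ht 0 (R ^ 2) (by positivity)
  unfold gaussArea at h
  set f : EE N → ℝ≥0∞ := fun x => (((fun q => F q t) ⁻¹' {x}).encard : ℝ≥0∞) with hf
  set a : ℝ≥0∞ := ENNReal.ofReal ((4 * Real.pi * R ^ 2) ^ (-(n : ℝ) / 2)) with ha
  set b : ℝ≥0∞ := ENNReal.ofReal (Real.exp (-(1 / 4))) with hb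
  set g : EE N → ℝ≥0∞ := fun x => ENNReal.ofReal (Real.exp (-‖x - 0‖ ^ 2 / (4 * R ^ 2))) with hg
  have h' : a * (∫⁻ x, f x * g x ∂μH[(n : ℝ)]) ≤ C := h
  have h1 : b * ∫⁻ x in Metric.closedBall (0 : EE N) R, f x ∂μH[(n : ℝ)]
      ≤ ∫⁻ x in Metric.closedBall (0 : EE N) R, b * f x ∂μH[(n : ℝ)] :=
    lintegral_const_mul_le _ _
  have h2 : ∫⁻ x in Metric.closedBall (0 : EE N) R, b * f x ∂μH[(n : ℝ)]
      ≤ ∫⁻ x in Metric.closedBall (0 : EE N) R, f x * g x ∂μH[(n : ℝ)] := by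
    refine setLIntegral_mono' Metric.isClosed_closedBall.measurableSet ?_
    intro x hx
    rw [mul_comm]
    refine mul_le_mul_right ?_ _
    rw [hb, hg]
    refine ENNReal.ofReal_le_ofReal (Real.exp_le_exp.mpr ?_)
    rw [mem_closedBall_zero_iff] at hx
    have hx2 : ‖x - 0‖ ^ 2 ≤ R ^ 2 := by
      rw [sub_zero]
      exact pow_le_pow_left₀ (norm_nonneg x) hx 2
    rw [neg_div, neg_le_neg_iff, div_le_iff₀ (by positivity)]
    linarith
  have h3 : ∫⁻ x in Metric.closedBall (0 : EE N) R, f x * g x ∂μH[(n : ℝ)]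
      ≤ ∫⁻ x, f x * g x ∂μH[(n : ℝ)] := setLIntegral_le_lintegral _ _
  set I : ℝ≥0∞ := ∫⁻ x in Metric.closedBall (0 : EE N) R, f x ∂μH[(n : ℝ)] with hI
  have h4 : a * (b * I) ≤ C := le_trans (by gcongr; exact h1.trans (h2.trans h3)) h'
  have hab : ENNReal.ofReal ((4 * Real.pi * R ^ 2) ^ ((n : ℝ) / 2)) * a = 1 := by
    rw [ha, ← ENNReal.ofReal_mul (by positivity), ← Real.rpow_add (by positivity)]
    have h5 : (n : ℝ) / 2 + -(n : ℝ) / 2 = 0 := by ring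
    rw [h5, Real.rpow_zero, ENNReal.ofReal_one]
  have hbb : ENNReal.ofReal (Real.exp (1 / 4)) * b = 1 := by
    rw [hb, ← ENNReal.ofReal_mul (by positivity), ← Real.exp_add]
    have h5 : (1 / 4 : ℝ) + -(1 / 4) = 0 := by ring
    rw [h5, Real.exp_zero, ENNReal.ofReal_one]
  have h6 : I ≤ C * ENNReal.ofReal ((4 * Real.pi) ^ ((n : ℝ) / 2)) *
      ENNReal.ofReal (Real.exp (1 / 4)) * ENNReal.ofReal (R ^ n) := by
    have h7 : I = ENNReal.ofReal ((4 * Real.pi * R ^ 2) ^ ((n : ℝ) / 2)) *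
        ENNReal.ofReal (Real.exp (1 / 4)) * (a * (b * I)) := by
      calc I = (ENNReal.ofReal ((4 * Real.pi * R ^ 2) ^ ((n : ℝ) / 2)) * a) *
            (ENNReal.ofReal (Real.exp (1 / 4)) * b) * I := by rw [hab, hbb, one_mul, one_mul]
        _ = _ := by ring
    have h8 : ENNReal.ofReal ((4 * Real.pi * R ^ 2) ^ ((n : ℝ) / 2)) =
        ENNReal.ofReal ((4 * Real.pi) ^ ((n : ℝ) / 2)) * ENNReal.ofReal (R ^ n) := by
      rw [pow_id n hR, ENNReal.ofReal_mul (by positivity)]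
    calc I = ENNReal.ofReal ((4 * Real.pi * R ^ 2) ^ ((n : ℝ) / 2)) *
        ENNReal.ofReal (Real.exp (1 / 4)) * (a * (b * I)) := h7
      _ ≤ ENNReal.ofReal ((4 * Real.pi * R ^ 2) ^ ((n : ℝ) / 2)) *
        ENNReal.ofReal (Real.exp (1 / 4)) * C := by gcongr
      _ = _ := by rw [h8]; ring
  calc C8 * I ≤ C8 * (C * ENNReal.ofReal ((4 * Real.pi) ^ ((n : ℝ) / 2)) *
      ENNReal.ofReal (Real.exp (1 / 4)) * ENNReal.ofReal (R ^ n)) := by gcongr
    _ = D * ENNReal.ofReal (R ^ n) := by rw [hD]; ring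
    _ ≤ ENNReal.ofReal (D.toReal + 1) * ENNReal.ofReal (R ^ n) := by
        gcongr
        calc D = ENNReal.ofReal D.toReal := (ENNReal.ofReal_toReal hDt).symm
          _ ≤ ENNReal.ofReal (D.toReal + 1) := ENNReal.ofReal_le_ofReal (by linarith)
    _ = ENNReal.ofReal ((D.toReal + 1) * R ^ n) := (ENNReal.ofReal_mul (by positivity)).symm

end Helper47.PI2
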